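import Pool.Agent.Helper59.DF.DpMin
import Pool.Agent.Helper59.DF.DistN
import Pool.Agent.Helper59.DF.NoType

/-!
# A distal dp-minimal structure with a definable directed family in no definable type

The structure.  For a natural number `d` let `A_d` be the group of binary strings of length `d`
(addition mod 2 in each place).  The universe `Pt` consists of two copies `Λ_d`, `O_d` of `A_d`
(side `false` and side `true`) for every level `d`.  For `a ∈ Λ_d` and `c ∈ O_d` the sum `a + c`
is a node of level `d` of the binary tree, and only this node (not `a` or `c`) can be compared
with other levels: the basic relation is that `a + c` extends `a' + c'`, for `a' ∈ Λ_{d'}`,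
`c' ∈ O_{d'}`, `d' ≤ d`, together with the order of the levels.  The language used here
consists of all relations of finite arity which are invariant under `K`-similarity for some `K`:
two tuples are `K`-similar if the points have the same sides, and the levels of the points and the
lengths up to which the balanced sums of points vanish have the same order and the same
differences up to `K`.  Such a structure eliminates quantifiers, it is dp-minimal and distal.
The family is `X_m = {(x, y) : x ∈ Λ_d, y ∈ O_d for some d greater than the level of m}`.  A type
containing it chooses, for every level, one of the finitely many nodes of that level, and it
defines a branch of the tree; but no branch is definable, because of the automorphisms that shift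
all `O_d` by the same infinite string.
-/

set_option autoImplicit false

open Pool.Agent.Helper59.DF

namespace Pool.Agent.Results.MP_6a1f82_lc.NoDefinableType

/-- There is a dp-minimal distal structure `M` and a definable downward directed family of
nonempty subsets of `M ^ 2`, indexed by a definable subset of `M`, such that no definable type
in `S_2(M)` contains all members of the family. -/
theorem result :
    ∃ (L : FirstOrder.Language.{0, 0}) (M : Type) (_ : L.Structure M),
      IsDpMinimal L M ∧ IsDistal L M ∧
      ∃ (Y : Set (Fin 1 → M)) (X : Set (Fin 1 ⊕ Fin 2 → M)),
        IsDirectedFamily L Y X ∧
        ¬ ∃ p : (L.elementaryDiagram M).CompleteType (Fin 2),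
          IsDefinableType p ∧ ∀ b ∈ Y, SetMem (fiber X b) p :=
  ⟨LD, Pt, inferInstance, isDpMinimal, isDistal, Set.univ, XX, isDirected, noType⟩

end Pool.Agent.Results.MP_6a1f82_lc.NoDefinableType
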